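import Pool.Agent.K1H65.CL.StableCount

/-!
# A stable continuous theory which does not have enough d-definable sets (Q1)

The structure is `[0, 1]` with the discrete metric and the predicate `P(x) = x`. A bijection of a
discrete structure which moves the values of `P` only a little moves the values of every formula only
a little. Hence the formulas `φ(x)` without parameters are uniformly continuous functions of `P(x)`,
and the only sets which are d-definable over `∅` are `∅` and the whole universe. On the other hand
the set of the realizations of the complete type `P(x) = 1/2` is neither of them. The theory is stable:
no formula has the order property in a model, and there are at most `|A| + 2 ^ ℵ₀` types over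
a set `A`.
-/

set_option autoImplicit false

open Cardinal

namespace Pool.Agent.Results.MP_cc3859_lc.StableNotEnough

open Pool.Agent.K1H65.CL

/-- There is a theory `T` of continuous logic, in the signature with one unary predicate symbol, with
the following properties. `T` is complete: it is the theory of a structure `M`. `T` is stable: no
formula has the order property in a model of `T`, and (so `T` is even superstable) there are at most
`|A| + 2 ^ ℵ₀` complete types over a set `A` of parameters. `T` does not have enough d-definable sets;
in fact the only subsets of the model `M` which are d-definable over `∅` are `∅` and `M`, while some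
complete type over `∅` is realized by some but not by all elements of `M`. -/
theorem result :
    ∃ T : Theory.{0, 0} sig,
      Stable T ∧
      (∀ N : Str.{0, 0} sig, N.Models T → ∀ (A : Set N) (n : ℕ),
        #(CType N A n) ≤ lift.{1} (max #A 𝔠)) ∧
      ¬ EnoughDDefinable T ∧
      ∃ M : Str.{0, 0} sig, T = {φ | φ.eval M PEmpty.elim = 0} ∧
        (∀ D : Set (Fin 1 → M), DDefinable M ∅ 1 D → D = ∅ ∨ D = Set.univ) ∧
        ∃ p : CType M ∅ 1, p.real.Nonempty ∧ p.real ≠ Set.univ :=
  ⟨exTheory, exTheory_stable,
    fun N hN A n => card_types_le (disc_of_eval N (hN _ discF_mem)) A n, not_enough,
    exStr, rfl, trivial_ddefinable, halfType, halfType_real_nonempty, halfType_real⟩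

end Pool.Agent.Results.MP_cc3859_lc.StableNotEnough
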